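import Pool.Agent.H30.VX.Targets

/-!
# MP_d32443_co, large `k`: the core theorem (row COR of vex_modules)
-/

set_option autoImplicit false

namespace Pool.Agent.H39.VX

open Finset Pool.Agent.H48.CE Pool.Agent.H30.VR Pool.Agent.H30.VX

theorem lv_of_subset {V : Type} {Z P : Finset V} (hZ : 0 < Z.card) (h : Z ⊆ P) : Lv Z P := by
  classical
  have h1 : Z.filter (fun v => v ∉ P) = ∅ := by
    rw [filter_eq_empty_iff]
    intro v hv hv'
    exact hv' (h hv)
  have h2 : (Z.filter (fun v => v ∉ P)).card = 0 := by rw [h1, card_empty]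
  unfold Lv
  have h3 : 4 * (Z.filter (fun v => v ∉ P)).card < Z.card := by rw [h2]; omega
  exact h3

theorem ob_hub (hOBH : T_OBH) {V : Type} {G : SimpleGraph V} {H B : Finset V} {ε : ℝ} {k c : ℕ}
    (h : C1 G ε k H B) (hε : ε ≤ 1 / 10) (hk : 10 ≤ k) (hc : c ≤ H.card) (hH : 0 < H.card) :
    Ob G c H := by
  refine ⟨hc, fun P Q hPQ => ?_⟩
  rcases hOBH G H B ε k h hε hk P Q hPQ with h1 | h1
  · exact Or.inl (lv_of_subset hH h1)
  · exact Or.inr (lv_of_subset hH h1)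

open scoped Classical in
theorem card_pair {V : Type} {G : SimpleGraph V} {A B : Finset V} {d : ℝ} {r t : ℕ}
    (h : LP G d r t A B) : (A ∪ B).card = 2 * (r * t) := by
  have h1 : Disjoint A B := by
    rw [disjoint_left]
    exact h.dis
  rw [card_union_of_disjoint h1, h.ca, h.cb]
  ring

open scoped Classical in
theorem lv_pair {V : Type} {G : SimpleGraph V} {A B P : Finset V} {d : ℝ} {r t : ℕ}
    (h : LP G d r t A B) (hr : 4 ≤ r) (h1 : (A.filter (fun v => v ∉ P)).card < t)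
    (h2 : (B.filter (fun v => v ∉ P)).card < t) : Lv (A ∪ B) P := by
  have h3 : ((A ∪ B).filter (fun v => v ∉ P)).card ≤
      (A.filter (fun v => v ∉ P)).card + (B.filter (fun v => v ∉ P)).card := by
    rw [filter_union]
    exact card_union_le _ _
  have h4 : 4 * ((A ∪ B).filter (fun v => v ∉ P)).card < (A ∪ B).card := by
    rw [card_pair h]
    have : 4 * t ≤ r * t := Nat.mul_le_mul_right t hr
    omega
  exact h4

open scoped Classical in
theorem ob_pair (hOBP : T_OBP) {V : Type} {G : SimpleGraph V} {A B : Finset V} {d : ℝ} {r t c : ℕ}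
    (h : LP G d r t A B) (hd : 0 < d) (ht : 1 ≤ t) (hr : 4 ≤ r) (hc : c ≤ 2 * (r * t)) :
    Ob G c (A ∪ B) := by
  refine ⟨by rw [card_pair h]; exact hc, fun P Q hPQ => ?_⟩
  rcases hOBP G A B d r t h hd ht hr P Q hPQ with h1 | h1
  · exact Or.inl (lv_pair h hr h1.1 h1.2)
  · exact Or.inr (lv_pair h hr h1.1 h1.2)

/-- A leaf cannot contain a core of type I if it has enough edges. -/
theorem leaf_false (hHUB : T_HUB) (hGPR : T_GPR) (hL3 : T_L3) (hOBH : T_OBH) (hOBP : T_OBP) :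
    ∃ (γ : ℝ) (k₀ : ℕ), 0 < γ ∧ ∀ k : ℕ, k₀ ≤ k → ∀ {V : Type} [Fintype V] (G : SimpleGraph V)
      (X H B : Finset V) (ε : ℝ) (c : ℕ), ε ≤ 1 / 2000 → ε ≤ γ → ¬ HasRun k G → H ⊆ X → B ⊆ X →
      C1 G ε k H B →
      (ff k X.card : ℤ) ≤ ee G X X + k + ((k : ℤ) - rr k X.card) ^ 2 →
      Leaf G c X → (c : ℝ) ≤ γ * k → False := by
  classical
  obtain ⟨k₁, hHUB⟩ := hHUB
  obtain ⟨d, γ, r, k₂, hd, hd1, hγ, hr, hr40, hGPR⟩ := hGPR
  obtain ⟨k₃, hk₃⟩ := exists_nat_gt ((18 * (r + 1) / d + 9 * (1 / d + 3) + 4) / γ)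
  refine ⟨min γ (1 / 2), k₁ + k₂ + k₃ + 1000, lt_min hγ (by norm_num), ?_⟩
  intro k hk V _ G X H B ε c hε hεγ hrun hHX hBX hC hff hleaf hc
  have hεγ' : ε ≤ γ := le_trans hεγ (min_le_left _ _)
  have hk0 : (0 : ℝ) ≤ k := Nat.cast_nonneg _
  have hk1000 : (1000 : ℝ) ≤ k := by
    have : 1000 ≤ k := by omega
    exact_mod_cast this
  have hcγ : (c : ℝ) ≤ γ * k :=
    le_trans hc (mul_le_mul_of_nonneg_right (min_le_left _ _) hk0)
  have hc2 : (c : ℝ) ≤ 1 / 2 * k :=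
    le_trans hc (mul_le_mul_of_nonneg_right (min_le_right _ _) hk0)
  obtain ⟨hHk, R, hRX, hRne, hRH, hRd⟩ :=
    hHUB k (by omega) G X H B ε hε hrun hHX hBX hC hff
  obtain ⟨A, A', t, hAR, hAR', hLP, htγ, h100⟩ := hGPR k (by omega) G R hrun hRne hRd
  -- numbers
  have hkk : (k₃ : ℝ) ≤ k := by
    have : k₃ ≤ k := by omega
    exact_mod_cast this
  have hbig : 18 * (r + 1) / d + 9 * (1 / d + 3) + 4 < γ * k := by
    have h1 : (18 * (r + 1) / d + 9 * (1 / d + 3) + 4) / γ < k := lt_of_lt_of_le hk₃ hkk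
    rw [div_lt_iff₀ hγ] at h1
    linarith
  have hpos1 : (0 : ℝ) ≤ 18 * (r + 1) / d := by positivity
  have hpos2 : (0 : ℝ) ≤ 9 * (1 / d + 3) := by positivity
  have ht4 : (4 : ℝ) < t := by linarith
  have ht4' : 4 < t := by exact_mod_cast ht4
  have h18 : (18 * (r + 1) : ℝ) < d * t := by
    have h1 : 18 * (r + 1) / d < t := by linarith
    rw [div_lt_iff₀ hd] at h1
    linarith
  have h9 : 9 * (1 / d + 3) ≤ (t : ℝ) := by linarith
  have h20 : (20 : ℝ) ≤ d * r := by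
    have h1 := (div_le_iff₀ hd).1 hr
    linarith
  have hHc : (1 - ε) * k ≤ H.card := hC.2.1
  have hH2 : (1 / 2 : ℝ) * k ≤ H.card := by
    have h1 : (1 / 2 : ℝ) * k ≤ (1 - ε) * k := mul_le_mul_of_nonneg_right (by linarith) hk0
    linarith
  have hHpos : 0 < H.card := by
    have h1 : (0 : ℝ) < H.card := by linarith
    exact_mod_cast h1
  have hcH : c ≤ H.card := by
    have h1 : (c : ℝ) ≤ H.card := by linarith
    exact_mod_cast h1
  have hrt : 40 * t ≤ r * t := Nat.mul_le_mul_right t hr40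
  have hct : c ≤ 2 * (r * t) := by
    have h1 : (c : ℝ) ≤ t := by linarith
    have h2 : c ≤ t := by exact_mod_cast h1
    omega
  have hlen : k + 1 + 20 * t ≤ H.card + r * t := by
    have h1 : (k : ℝ) ≤ H.card + ε * k := by linarith
    have h2 : ε * k ≤ t := le_trans (mul_le_mul_of_nonneg_right hεγ' hk0) htγ
    have h3 : (k : ℝ) ≤ H.card + t := by linarith
    have h4 : k ≤ H.card + t := by exact_mod_cast h3
    omega
  have hHA : ∀ v ∈ H, v ∉ A ∧ v ∉ A' := by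
    intro v hv
    exact ⟨fun h => hRH v (hAR h) hv, fun h => hRH v (hAR' h) hv⟩
  have hOH : Ob G c H := ob_hub hOBH hC (by linarith) (by omega) hcH hHpos
  have hOA : Ob G c (A ∪ A') := ob_pair hOBP hLP hd (by omega) (by omega) hct
  have hAX : A ∪ A' ⊆ X := union_subset (hAR.trans hRX) (hAR'.trans hRX)
  have hApos : 0 < (A ∪ A').card := by
    rw [card_pair hLP]
    omega
  refine hrun (hL3 G H B A A' d ε r t k hC hε (by omega) hHk hLP hHA hd hd1 (by omega) h20 h18 h9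
    h100 hlen ?_)
  intro P Q hPQ h1 h2 h3
  exact hleaf (A ∪ A') H hOA hOH (lv_of_subset hApos hAX) (lv_of_subset hHpos hHX) P Q hPQ
    (lv_pair hLP (by omega) h1 h2) (lv_of_subset hHpos h3)

/-- The arithmetic of the residues. -/
theorem num {k u : ℕ} {δ ε₀ : ℝ} (hk : 1000 ≤ k) (hδ : 0 < δ) (hkδ : 4 < δ ^ 2 * k)
    (hε0 : 0 < ε₀) (hε : 4 < ε₀ ^ 2 * k) (hu : δ * k ≤ u)
    (h : (u % (2 * k)) ^ 2 ≤ 4 * k ∨ (2 * k - u % (2 * k)) ^ 2 ≤ 4 * k) :
    (2 - ε₀) * k ≤ u ∧ 7 * (k : ℤ) ≤ ((k : ℤ) - ((u + 1) % (2 * k) : ℕ)) ^ 2 := by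
  have hk0 : (0 : ℝ) < k := by
    have : (1000 : ℝ) ≤ k := by exact_mod_cast hk
    linarith
  have hlt : u % (2 * k) < 2 * k := Nat.mod_lt _ (by omega)
  -- (k - x)^2 is large if |k - x| ≥ k / 2
  have hsq : ∀ x : ℤ, 2 * x ≤ k ∨ 3 * (k : ℤ) ≤ 2 * x → 7 * (k : ℤ) ≤ ((k : ℤ) - x) ^ 2 := by
    intro x hx
    have hkz : (1000 : ℤ) ≤ k := by exact_mod_cast hk
    rcases hx with hx | hx
    · have h1 : (k : ℤ) ≤ 2 * (k - x) := by linarith
      nlinarith
    · have h1 : (k : ℤ) ≤ 2 * (x - k) := by linarith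
      nlinarith
  have hmod : (u + 1) % (2 * k) = u % (2 * k) + 1 ∨ (u + 1) % (2 * k) = 0 := by
    by_cases h1 : u % (2 * k) + 1 < 2 * k
    · left
      rw [Nat.add_mod, Nat.mod_eq_of_lt (by omega : 1 < 2 * k), Nat.mod_eq_of_lt h1]
    · right
      have h2 : u % (2 * k) + 1 = 2 * k := by omega
      rw [Nat.add_mod, Nat.mod_eq_of_lt (by omega : 1 < 2 * k), h2, Nat.mod_self]
  rcases h with h | h
  · -- the residue is small
    have h10 : 10 * (u % (2 * k)) ≤ k := by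
      by_contra hcon
      push Not at hcon
      nlinarith
    constructor
    · have h2k : 2 * k ≤ u := by
        by_contra hcon
        push Not at hcon
        rw [Nat.mod_eq_of_lt hcon] at h
        have h1 : (u : ℝ) ^ 2 ≤ 4 * k := by exact_mod_cast h
        have h2 : (δ * k) ^ 2 ≤ (u : ℝ) ^ 2 := by
          apply pow_le_pow_left₀ (by positivity) hu
        have h3 : 4 * (k : ℝ) < δ ^ 2 * k * k := mul_lt_mul_of_pos_right hkδ hk0
        nlinarith
      have h3 : (2 * k : ℝ) ≤ u := by exact_mod_cast h2k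
      have h4 : (0 : ℝ) < ε₀ * k := by positivity
      linarith
    · apply hsq
      left
      rcases hmod with h1 | h1 <;> rw [h1] <;> omega
  · have h10 : 10 * (2 * k - u % (2 * k)) ≤ k := by
      by_contra hcon
      push Not at hcon
      nlinarith
    constructor
    · have h1 : ((2 * k - u % (2 * k) : ℕ) : ℝ) ^ 2 ≤ 4 * k := by exact_mod_cast h
      have h2 : ((2 * k - u % (2 * k) : ℕ) : ℝ) ≤ ε₀ * k := by
        by_contra hcon
        push Not at hcon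
        have h3 : (ε₀ * k) ^ 2 < ((2 * k - u % (2 * k) : ℕ) : ℝ) ^ 2 :=
          pow_lt_pow_left₀ hcon (by positivity) (by norm_num)
        have h4 : 4 * (k : ℝ) < ε₀ ^ 2 * k * k := mul_lt_mul_of_pos_right hε hk0
        nlinarith
      have h3 : u % (2 * k) ≤ u := Nat.mod_le _ _
      have h4 : 2 * k ≤ (2 * k - u % (2 * k)) + u := by omega
      have h5 : (2 * k : ℝ) ≤ ((2 * k - u % (2 * k) : ℕ) : ℝ) + u := by exact_mod_cast h4
      linarith
    · apply hsq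
      rcases hmod with h1 | h1
      · right
        rw [h1]
        have h7 : 3 * k ≤ 2 * (u % (2 * k) + 1) := by omega
        exact_mod_cast h7
      · left
        rw [h1]
        push_cast
        omega

/-- Stability inside a set of vertices. -/
theorem stb_set {ε ε₀ : ℝ} {k₀ : ℕ} (H1 : ∀ k : ℕ, k₀ ≤ k → ∀ {V : Type} [Fintype V]
      (G : SimpleGraph V), ¬ HasRun k G → (2 - ε₀) * k ≤ Fintype.card V → Bd G k →
      ff k (Fintype.card V) ≤ ee G univ univ + 8 * k →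
      (∃ H B : Finset V, C1 G ε k H B) ∨ ∃ W : Finset V, C2 G ε k W)
    {k : ℕ} (hk : k₀ ≤ k) {V : Type} [Fintype V] (G : SimpleGraph V) (X : Finset V)
    (hrun : ¬ HasRun k G) (hX : (2 - ε₀) * k ≤ X.card) (hB : Bd G k)
    (hff : ff k X.card ≤ ee G X X + 8 * k) :
    (∃ H B : Finset V, H ⊆ X ∧ B ⊆ X ∧ C1 G ε k H B) ∨ ∃ W : Finset V, C2 G ε k W := by
  classical
  have h1 := H1 k hk (rs G X) (fun h => hrun (rs_hasRun h)) (by rw [card_rs]; exact hX)
    (bd_rs (by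
      intro R hRX hR hne
      refine hB R hR ?_
      by_contra hcon
      push Not at hcon
      apply hne
      exact Subset.antisymm hRX (fun x _ => hcon x)))
    (by rw [card_rs, ee_rs_univ]; exact hff)
  rcases h1 with ⟨H, B, h⟩ | ⟨W, h⟩
  · exact Or.inl ⟨up H, up B, up_subset H, up_subset B, c1_up h⟩
  · exact Or.inr ⟨up W, c2_up h⟩

theorem pf_COR (hTH2 : T_TH2) (hSTB : T_STB) (hHUB : T_HUB) (hGPR : T_GPR) (hL3 : T_L3)
    (hOBH : T_OBH) (hOBP : T_OBP) (hTWL : T_TWL) (hLVC : T_LVC) : T_COR := by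
  classical
  obtain ⟨ε₂, k₂, hε₂, H2⟩ := hTH2
  obtain ⟨γ, k₃, hγ, H3⟩ := leaf_false hHUB hGPR hL3 hOBH hOBP
  obtain ⟨ε, hε0, hεa, hεb, hεc⟩ : ∃ ε : ℝ, 0 < ε ∧ ε ≤ ε₂ ∧ ε ≤ 1 / 2000 ∧ ε ≤ γ :=
    ⟨min ε₂ (min (1 / 2000) γ), lt_min hε₂ (lt_min (by norm_num) hγ), min_le_left _ _,
      le_trans (min_le_right _ _) (min_le_left _ _),
      le_trans (min_le_right _ _) (min_le_right _ _)⟩
  obtain ⟨ε₀, k₁, hε₀, H1⟩ := hSTB ε hε0 (by linarith)
  obtain ⟨k₄, hk₄⟩ := exists_nat_gt (17 / γ)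
  obtain ⟨k₅, hk₅⟩ := exists_nat_gt (4 / (γ / 2) ^ 2)
  obtain ⟨k₆, hk₆⟩ := exists_nat_gt (4 / ε₀ ^ 2)
  refine ⟨k₁ + k₂ + k₃ + k₄ + k₅ + k₆ + 1000, ?_⟩
  intro k hk V _ G hCon hn hrun hBd
  by_contra hcon
  push Not at hcon
  have hk1000 : 1000 ≤ k := by omega
  have hk0 : (0 : ℝ) < k := by
    have : (1000 : ℝ) ≤ k := by exact_mod_cast hk1000
    linarith
  -- the constant of the objects
  obtain ⟨c, hc16, hcγ, hcγ2⟩ : ∃ c : ℕ, 16 ≤ c ∧ (c : ℝ) ≤ γ * k ∧ γ * k < c + 1 := by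
    have h1 : (17 : ℝ) < γ * k := by
      have h2 : (k₄ : ℝ) ≤ k := by
        have : k₄ ≤ k := by omega
        exact_mod_cast this
      have h3 : 17 / γ < k := lt_of_lt_of_le hk₄ h2
      rw [div_lt_iff₀ hγ] at h3
      linarith
    refine ⟨⌊γ * k⌋₊, Nat.le_floor (by push_cast; linarith), Nat.floor_le (by positivity),
      Nat.lt_floor_add_one _⟩
  have hkδ : 4 < (γ / 2) ^ 2 * k := by
    have h2 : (k₅ : ℝ) ≤ k := by
      have : k₅ ≤ k := by omega
      exact_mod_cast this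
    have h3 : 4 / (γ / 2) ^ 2 < k := lt_of_lt_of_le hk₅ h2
    rw [div_lt_iff₀ (by positivity)] at h3
    linarith
  have hkε : 4 < ε₀ ^ 2 * k := by
    have h2 : (k₆ : ℝ) ≤ k := by
      have : k₆ ≤ k := by omega
      exact_mod_cast this
    have h3 : 4 / ε₀ ^ 2 < k := lt_of_lt_of_le hk₆ h2
    rw [div_lt_iff₀ (by positivity)] at h3
    linarith
  -- no core of type II
  have hno2 : ∀ W : Finset V, ¬ C2 G ε k W := by
    intro W hW
    exact hrun (H2 k (by omega) G W hCon hn (hW.mono hεa) hcon)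
  -- the main step
  have hmain : ∀ X : Finset V, (2 - ε₀) * k ≤ X.card → ff k X.card ≤ ee G X X + 8 * k →
      (ff k X.card : ℤ) ≤ ee G X X + k + ((k : ℤ) - rr k X.card) ^ 2 → Leaf G c X → False := by
    intro X hX hff hff2 hleaf
    rcases stb_set H1 (by omega) G X hrun hX hBd hff with ⟨H, B, hHX, hBX, hC⟩ | ⟨W, hW⟩
    · exact H3 k (by omega) G X H B ε c hεb hεc hrun hHX hBX hC hff2 hleaf hcγ
    · exact hno2 W hW
  by_cases hsep : ∃ P Q : Finset V, Sp G 2 P Q ∧ (∃ Z, Ob G c Z ∧ Lv Z P) ∧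
      ∃ Z, Ob G c Z ∧ Lv Z Q
  · -- two leaves
    obtain ⟨P, Q, hPQ, hZP, hZQ⟩ := hsep
    obtain ⟨X₁, Y₁, X₂, Y₂, hS1, hS2, hXY, hl1, hl2, hc1, hc2, hv1, hv2, hm1, hm2⟩ :=
      hTWL G c P Q hCon hc16 hPQ hZP hZQ
    obtain ⟨hmin, hf1, hf2⟩ := hLVC G k X₁ Y₁ X₂ Y₂ (by omega) hBd hcon hS1 hS2 hXY hc1 hc2 hv1
      hv2 (by omega) (by omega)
    have hstep : ∀ X : Finset V, 3 * c ≤ 4 * X.card → ff k X.card ≤ ee G X X + 8 * k →
        Leaf G c X → ((rr k (X.card - 1)) ^ 2 ≤ 4 * k ∨ (2 * k - rr k (X.card - 1)) ^ 2 ≤ 4 * k) →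
        False := by
      intro X hX hff hleaf hres
      obtain ⟨u, hu⟩ : ∃ u, X.card = u + 2 := ⟨X.card - 2, by omega⟩
      have hr1 : rr k (X.card - 1) = u % (2 * k) := by
        unfold rr
        rw [hu]
        rfl
      have hr2 : rr k X.card = (u + 1) % (2 * k) := by
        unfold rr
        rw [hu]
        rfl
      rw [hr1] at hres
      have huR : γ / 2 * k ≤ (u : ℝ) := by
        have h1 : (3 * c : ℝ) ≤ 4 * (u + 2) := by
          have : 3 * c ≤ 4 * (u + 2) := by omega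
          exact_mod_cast this
        have h2 : (16 : ℝ) ≤ c := by exact_mod_cast hc16
        linarith
      obtain ⟨h1, h2⟩ := num hk1000 (by positivity : 0 < γ / 2) hkδ hε₀ hkε huR hres
      refine hmain X ?_ hff ?_ hleaf
      · rw [hu]
        push_cast
        linarith
      · rw [hr2]
        have h3 : (ff k X.card : ℤ) ≤ ee G X X + 8 * k := by exact_mod_cast hff
        linarith
    have hcase : ((rr k (X₁.card - 1)) ^ 2 ≤ 4 * k ∨ (2 * k - rr k (X₁.card - 1)) ^ 2 ≤ 4 * k) ∨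
        ((rr k (X₂.card - 1)) ^ 2 ≤ 4 * k ∨ (2 * k - rr k (X₂.card - 1)) ^ 2 ≤ 4 * k) := by
      have hprod : ∀ a b : ℕ, a * b ≤ 4 * k → a ^ 2 ≤ 4 * k ∨ b ^ 2 ≤ 4 * k := by
        intro a b hab
        rcases le_total a b with h | h
        · left
          nlinarith
        · right
          nlinarith
      rcases min_le_iff.1 hmin with h | h
      · rcases hprod _ _ h with h | h
        · exact Or.inl (Or.inl h)
        · exact Or.inr (Or.inl h)
      · rcases hprod _ _ h with h | h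
        · exact Or.inl (Or.inr h)
        · exact Or.inr (Or.inr h)
    rcases hcase with h | h
    · exact hstep X₁ hm1 hf1 hl1 h
    · exact hstep X₂ hm2 hf2 hl2 h
  · -- no separation of objects
    refine hmain univ ?_ ?_ ?_ ?_
    · rw [card_univ]
      have h1 : (2 * k + 2 : ℝ) ≤ Fintype.card V := by exact_mod_cast hn
      have h2 : (0 : ℝ) < ε₀ * k := by positivity
      linarith
    · rw [card_univ]
      omega
    · rw [card_univ]
      have h3 : (ff k (Fintype.card V) : ℤ) ≤ ee G univ univ := by exact_mod_cast hcon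
      have h4 : (0 : ℤ) ≤ ((k : ℤ) - rr k (Fintype.card V)) ^ 2 := sq_nonneg _
      have h5 : (0 : ℤ) ≤ k := by positivity
      linarith
    · intro Z Z' hZ hZ' _ _ P Q hPQ hP hQ
      exact hsep ⟨P, Q, hPQ, ⟨Z, hZ, hP⟩, Z', hZ', hQ⟩

end Pool.Agent.H39.VX
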