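import Pool.Agent.H30.VX.Targets

/-!
# MP_d32443_co, large `k`: the hub lemma (row HUB of vex_modules)
-/

set_option autoImplicit false

namespace Pool.Agent.H39.VX.HUB

open Finset Pool.Agent.H48.CE Pool.Agent.H30.VR Pool.Agent.H30.VX

open scoped Classical in
/-- Many common neighbours outside a set. -/
theorem cn_large {V : Type} (G : SimpleGraph V) (B S : Finset V) (u v : V)
    (hu : 9 * B.card ≤ 10 * (nb G B u).card) (hv : 9 * B.card ≤ 10 * (nb G B v).card) :
    8 * B.card ≤ 10 * (((cn G B u v).filter (fun w => w ∉ S)).card +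
      (S.filter (fun w => w ∈ B)).card) := by
  have h1 : (nb G B u).card + (nb G B v).card ≤ B.card + (cn G B u v).card := by
    have h2 : cn G B u v = nb G B u ∩ nb G B v := by
      ext w
      rw [mem_cn, mem_inter, mem_nb, mem_nb]
      tauto
    have h3 : nb G B u ∪ nb G B v ⊆ B := by
      intro w hw
      rw [mem_union, mem_nb, mem_nb] at hw
      rcases hw with hw | hw <;> exact hw.1
    have h4 := card_le_card h3
    have h5 := card_union_add_card_inter (nb G B u) (nb G B v)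
    rw [h2]
    omega
  have h6 : (cn G B u v).card ≤ ((cn G B u v).filter (fun w => w ∉ S)).card +
      (S.filter (fun w => w ∈ B)).card := by
    have h7 : cn G B u v ⊆ ((cn G B u v).filter (fun w => w ∉ S)) ∪ (S.filter (fun w => w ∈ B)) := by
      intro w hw
      rw [mem_union, mem_filter, mem_filter]
      by_cases hS : w ∈ S
      · exact Or.inr ⟨hS, (mem_cn.1 hw).1⟩
      · exact Or.inl ⟨hw, hS⟩
    exact (card_le_card h7).trans (card_union_le _ _)
  omega

open scoped Classical in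
/-- A set which contains `H` has few vertices in `B`. -/
theorem few_in_B {V : Type} (H B S : Finset V) (hdis : ∀ v ∈ H, v ∉ B) (hHS : H ⊆ S) :
    (S.filter (fun w => w ∈ B)).card + H.card ≤ S.card := by
  have h1 : (S.filter (fun w => w ∈ B)) ∪ H ⊆ S := by
    intro w hw
    rw [mem_union, mem_filter] at hw
    rcases hw with hw | hw
    · exact hw.1
    · exact hHS hw
  have h2 : Disjoint (S.filter (fun w => w ∈ B)) H := by
    rw [disjoint_left]
    intro w hw hH
    exact hdis w hH (mem_filter.1 hw).2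
  have h3 := card_le_card h1
  rw [card_union_of_disjoint h2] at h3
  exact h3

open scoped Classical in
theorem pf_HUB (hHK : T_HK) (hEXC : T_EXC) (hVCM : T_VCM) (hHBC : T_HBC) : T_HUB := by
  refine ⟨100000, ?_⟩
  intro k hk V _ G X H B ε hε hrun hHX hBX hC hff
  obtain ⟨hdis, hHc, hBc, hadj⟩ := hC
  have hk0 : (0 : ℝ) ≤ k := Nat.cast_nonneg _
  -- numbers
  have nH : 1999 * k ≤ 2000 * H.card := by
    have h1 : (1 - 1 / 2000 : ℝ) * k ≤ (1 - ε) * k :=
      mul_le_mul_of_nonneg_right (by linarith) hk0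
    have h2 : (1999 * k : ℝ) ≤ 2000 * H.card := by linarith
    exact_mod_cast h2
  have nB : 7 * k ≤ 5 * B.card := by
    have h2 : (7 * k : ℝ) ≤ 5 * B.card := by linarith
    exact_mod_cast h2
  have hB0 : (0 : ℝ) ≤ B.card := Nat.cast_nonneg _
  have hH9 : ∀ v ∈ H, 9 * B.card ≤ 10 * (nb G B v).card := by
    intro v hv
    have h1 := hadj v hv
    have h2 : (9 / 10 : ℝ) * B.card ≤ (1 - ε) * B.card :=
      mul_le_mul_of_nonneg_right (by linarith) hB0
    have h3 : (9 * B.card : ℝ) ≤ 10 * (nb G B v).card := by linarith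
    exact_mod_cast h3
  obtain ⟨Hs, hHs⟩ : ∃ Hs : Finset V, ∀ v, v ∈ Hs ↔ v ∈ X ∧ 9 * B.card ≤ 10 * (nb G B v).card :=
    ⟨X.filter (fun v => 9 * B.card ≤ 10 * (nb G B v).card), fun v => mem_filter⟩
  have hHHs : H ⊆ Hs := fun v hv => (hHs v).2 ⟨hHX hv, hH9 v hv⟩
  have hHsX : Hs ⊆ X := fun v hv => ((hHs v).1 hv).1
  have cHHs := card_le_card hHHs
  -- at most `k` hubs
  have hHsk : Hs.card ≤ k := by
    by_contra hcon
    push Not at hcon
    apply hrun
    obtain ⟨H', hH'1, hH'2, hH'3⟩ : ∃ H' : Finset V, H' ⊆ Hs ∧ H'.card = k + 1 ∧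
        2000 * (H'.filter (fun w => w ∈ B)).card ≤ k + 2000 := by
      by_cases hc : H.card ≤ k + 1
      · obtain ⟨H', h1, h2, h3⟩ := exists_subsuperset_card_eq hHHs hc (by omega)
        refine ⟨H', h2, h3, ?_⟩
        have h4 := few_in_B H B H' hdis h1
        omega
      · obtain ⟨H', h1, h2⟩ := exists_subset_card_eq (s := H) (n := k + 1) (by omega)
        refine ⟨H', h1.trans hHHs, h2, ?_⟩
        have h4 : H'.filter (fun w => w ∈ B) = ∅ := by
          rw [filter_eq_empty_iff]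
          intro w hw
          exact hdis w (h1 hw)
        rw [h4, card_empty]
        omega
    refine hHK G H' B k (by omega) hH'2 ?_
    intro u hu v hv _
    have h1 := cn_large G B H' u v ((hHs u).1 (hH'1 hu)).2 ((hHs v).1 (hH'1 hv)).2
    omega
  obtain ⟨j, hj⟩ : ∃ j, Hs.card + j = k := ⟨k - Hs.card, by omega⟩
  have nj : 2000 * j ≤ k := by omega
  have hcnH : ∀ u ∈ Hs, ∀ v ∈ Hs, u ≠ v →
      k + 4 * (j + 1) ≤ ((cn G B u v).filter (fun w => w ∉ Hs)).card := by
    intro u hu v hv _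
    have h1 := cn_large G B Hs u v ((hHs u).1 hu).2 ((hHs v).1 hv).2
    have h2 := few_in_B H B Hs hdis hHHs
    omega
  obtain ⟨Bs, hBs⟩ : ∃ Bs : Finset V, ∀ v, v ∈ Bs ↔ v ∈ X ∧ v ∉ Hs ∧
      3 * Hs.card < 4 * (nb G Hs v).card :=
    ⟨X.filter (fun v => v ∉ Hs ∧ 3 * Hs.card < 4 * (nb G Hs v).card), fun v => mem_filter⟩
  obtain ⟨Xh, hXh⟩ : ∃ Xh : Finset V, ∀ v, v ∈ Xh ↔ v ∈ X ∧ v ∉ Hs ∧
      8 * (j + 1) ≤ (nb G Bs v).card :=
    ⟨X.filter (fun v => v ∉ Hs ∧ 8 * (j + 1) ≤ (nb G Bs v).card), fun v => mem_filter⟩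
  obtain ⟨R, hR⟩ : ∃ R : Finset V, ∀ v, v ∈ R ↔ v ∈ X ∧ v ∉ Hs ∧ v ∉ Xh ∧ v ∉ Bs :=
    ⟨X.filter (fun v => v ∉ Hs ∧ v ∉ Xh ∧ v ∉ Bs), fun v => mem_filter⟩
  have hBs4 : ∀ v ∈ Bs, v ∉ Hs ∧ 4 * (j + 1) ≤ (nb G Hs v).card := by
    intro v hv
    obtain ⟨_, h2, h3⟩ := (hBs v).1 hv
    exact ⟨h2, by omega⟩
  -- few vertices in `Xh`
  have hXhj : Xh.card ≤ j := by
    by_contra hcon
    push Not at hcon
    apply hrun
    obtain ⟨X', h1, h2⟩ := exists_subset_card_eq (s := Xh) (n := j + 1) (by omega)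
    have h0 : 2 * (j + 1 - X'.card) = 0 := by omega
    refine hEXC G Hs B Bs X' k j (fun i => absurd i.2 (by omega)) hj (by omega) ?_ hBs4 ?_ hcnH
      (by omega)
    · intro v hv
      exact ((hXh v).1 (h1 hv)).2
    · exact ⟨fun i => absurd i.2 (by omega), fun i => absurd i.2 (by omega),
        fun i => absurd i.2 (by omega), fun i => absurd i.2 (by omega),
        fun i => absurd i.2 (by omega), fun i => absurd i.2 (by omega)⟩
  -- few edges in `Bs - Xh`
  have hee : ee G (Bs.filter (fun v => v ∉ Xh)) (Bs.filter (fun v => v ∉ Xh)) ≤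
      64 * (j - Xh.card + 1) * (j + 1) := by
    have hD : ∀ v ∈ Bs.filter (fun v => v ∉ Xh),
        (nb G (Bs.filter (fun v => v ∉ Xh)) v).card ≤ 8 * (j + 1) := by
      intro v hv
      rw [mem_filter] at hv
      obtain ⟨h1, h2, _⟩ := (hBs v).1 hv.1
      have h3 : ¬ 8 * (j + 1) ≤ (nb G Bs v).card := fun h => hv.2 ((hXh v).2 ⟨h1, h2, h⟩)
      have h4 : nb G (Bs.filter (fun v => v ∉ Xh)) v ⊆ nb G Bs v := by
        intro w hw
        rw [mem_nb, mem_filter] at hw
        rw [mem_nb]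
        exact ⟨hw.1.1, hw.2⟩
      have h5 := card_le_card h4
      omega
    rcases hVCM G (Bs.filter (fun v => v ∉ Xh)) (2 * (j + 1 - Xh.card)) (8 * (j + 1)) hD with
      ⟨M, hM⟩ | h
    · exfalso
      apply hrun
      refine hEXC G Hs B Bs Xh k j M hj (by omega) ?_ hBs4 hM hcnH (by omega)
      intro v hv
      exact ((hXh v).1 hv).2
    · refine h.trans (le_of_eq ?_)
      have h1 : j + 1 - Xh.card = j - Xh.card + 1 := by omega
      have h2 : ∀ x y : ℕ, 4 * (2 * x) * (8 * y) = 64 * x * y := fun x y => by ring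
      exact (h2 _ _).trans (by rw [h1])
  refine ⟨by omega, R, fun v hv => ((hR v).1 hv).1, ?_⟩
  have hXc : 23 * k ≤ 10 * X.card := by
    have h1 : H ∪ B ⊆ X := union_subset hHX hBX
    have h2 : Disjoint H B := by
      rw [disjoint_left]
      exact hdis
    have h3 := card_le_card h1
    rw [card_union_of_disjoint h2] at h3
    omega
  obtain ⟨h1, h2⟩ := hHBC G X Hs Xh Bs R k j hHsX (fun v hv => ((hXh v).1 hv).1)
    (fun v hv => ((hBs v).1 hv).1)
    (fun v hv => ⟨fun h => ((hXh v).1 h).2.1 hv, fun h => ((hBs v).1 h).2.1 hv⟩) hR hj hXhj hee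
    (by
      intro v hv
      obtain ⟨h1, h2, h3, h4⟩ := (hR v).1 hv
      have h5 : ¬ 3 * Hs.card < 4 * (nb G Hs v).card := fun h => h4 ((hBs v).2 ⟨h1, h2, h⟩)
      have h6 : ¬ 8 * (j + 1) ≤ (nb G Bs v).card := fun h => h3 ((hXh v).2 ⟨h1, h2, h⟩)
      exact ⟨by omega, by omega⟩)
    nj (by omega) hXc hff
  exact ⟨h1, fun v hv hH => ((hR v).1 hv).2.1 (hHHs hH), h2⟩

end Pool.Agent.H39.VX.HUB
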